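import Mathlib
import Pool.Agent.SN.DefsC

/-!
# TQ4/Defs: suspensions of singularities in three variables whose cubic part is a cube: definitions
-/

set_option autoImplicit false

namespace Pool.Agent.TQ4

open MvPolynomial Pool.Agent.TC2 Pool.Agent.TC4 Pool.Agent.SN

/-- **the condition (SQ) at `P`**: to every order, in polynomial coordinates over `ℚ(P)`, `f = ∑ a_j y_j^{m_j} + g(x₀, x₁, x₂)`, `m_j ≥ 2`, where the cubic part
of `g` is the cube of a linear form `l ≠ 0` and the quartic part of `g` is not in the ideal `(q³, l², l q)` for any linear form `q` -/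
def SuspQuartic {n : ℕ} (f : MvPolynomial (Fin n) ℂ) (P : Fin n → ℂ) : Prop :=
  ∃ (ι : Fin 3 → Fin n) (m : Fin n → ℕ), (∀ j, 2 ≤ m j) ∧ ∀ L : ℕ, ∃ (a : Fin n → ℂ) (θ : Fin n → MvPolynomial (Fin n) ℂ) (g : MvPolynomial (Fin 3) ℂ)
    (r : MvPolynomial (Fin n) ℂ), SplM f P (IntermediateField.adjoin ℚ (Set.range P)) L ι m a θ g r ∧
      ∃ l : MvPolynomial (Fin 3) ℂ, l.IsHomogeneous 1 ∧ l ≠ 0 ∧ homogeneousComponent 3 g = l ^ 3 ∧
        ∀ q : MvPolynomial (Fin 3) ℂ, q.IsHomogeneous 1 → homogeneousComponent 4 g ∉ Ideal.span {q ^ 3, l ^ 2, l * q}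

/-- `b` is the part of degree four of `g` without `X₀` -/
def IsB4 (g b : MvPolynomial (Fin 3) ℂ) : Prop := ∀ v : Fin 3 →₀ ℕ, coeff v b = if v 0 = 0 ∧ v.degree = 4 then coeff v g else 0

end Pool.Agent.TQ4
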