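import Mathlib
import Pool.Agent.TQ4.Defs
import Pool.Agent.TC2.RootW
import Pool.Agent.TC3.Cubic

/-!
# TQ4/ExcQ: the face `α X₀³ + b(X₁, X₂)`: no exceptional relation
-/

set_option autoImplicit false

namespace Pool.Agent.TQ4

open MvPolynomial Pool.Agent.T9 Pool.Agent.TY Pool.Agent.TW Pool.Agent.TX Pool.Agent.TC2 Pool.Agent.TC4 Pool.Agent.SN

namespace ExcQAux

open Pool.Agent.TC2.RootCAux (uni_mul uni_sub uni_pow uni_C uni_X uni_add)

theorem in2_iff {x t : Fin 3} {g : MvPolynomial (Fin 3) ℂ} : In2 x t g ↔ g ∈ supported ℂ ({x, t} : Set (Fin 3)) := by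
  classical
  rw [mem_supported, Set.subset_def]
  constructor
  · intro h j hj
    by_contra h1
    rw [Finset.mem_coe, mem_vars_iff_mem_support] at hj
    obtain ⟨v, hv, hvj⟩ := hj
    rw [Set.mem_insert_iff, Set.mem_singleton_iff, not_or] at h1
    exact (Finsupp.mem_support_iff.1 hvj) (h v hv j h1.1 h1.2)
  · intro h v hv j h1 h2
    by_contra h3
    have h4 := h j (Finset.mem_coe.2 ((mem_vars_iff_mem_support j).2 ⟨v, hv, Finsupp.mem_support_iff.2 h3⟩))
    rw [Set.mem_insert_iff, Set.mem_singleton_iff] at h4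
    rcases h4 with h4 | h4
    · exact h1 h4
    · exact h2 h4

/-- a root of multiplicity at least three gives a triple factor -/
theorem cube_dvd {x t : Fin 3} (hxt : x ≠ t) {b : MvPolynomial (Fin 3) ℂ} (hb : In2 x t b) (h4 : b.IsHomogeneous 4) (ξ : ℂ)
    (hm : 3 ≤ (uni x t 1 b).rootMultiplicity ξ) : (X x - C ξ * X t) ^ 3 ∣ b := by
  classical
  obtain ⟨q, hq⟩ : (Polynomial.X - Polynomial.C ξ) ^ 3 ∣ uni x t 1 b := (pow_dvd_pow _ hm).trans (Polynomial.pow_rootMultiplicity_dvd _ ξ)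
  have hd : q.natDegree ≤ 1 := by
    by_cases hq0 : q = 0
    · rw [hq0, Polynomial.natDegree_zero]
      exact Nat.zero_le _
    · have h1 := Pool.Agent.TC3.Cubic.uni_natDegree hxt 1 hb h4
      rw [hq, Polynomial.natDegree_mul (pow_ne_zero _ (Polynomial.X_sub_C_ne_zero ξ)) hq0, Polynomial.natDegree_pow, Polynomial.natDegree_X_sub_C] at h1
      omega
  obtain ⟨a, c, hac⟩ := Polynomial.exists_eq_X_add_C_of_natDegree_le_one hd
  have hx : X x ∈ supported ℂ ({x, t} : Set (Fin 3)) := by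
    rw [X_mem_supported]
    simp
  have ht : X t ∈ supported ℂ ({x, t} : Set (Fin 3)) := by
    rw [X_mem_supported]
    simp
  have hC : ∀ z : ℂ, (C z : MvPolynomial (Fin 3) ℂ) ∈ supported ℂ ({x, t} : Set (Fin 3)) := fun z => Subalgebra.algebraMap_mem _ z
  have hB : In2 x t (b - (X x - C ξ * X t) ^ 3 * (C a * X x + C c * X t)) := by
    rw [in2_iff]
    refine Subalgebra.sub_mem _ (in2_iff.1 hb) (Subalgebra.mul_mem _ (Subalgebra.pow_mem _ (Subalgebra.sub_mem _ hx (Subalgebra.mul_mem _ (hC ξ) ht)) 3)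
      (Subalgebra.add_mem _ (Subalgebra.mul_mem _ (hC a) hx) (Subalgebra.mul_mem _ (hC c) ht)))
  have hH : (b - (X x - C ξ * X t) ^ 3 * (C a * X x + C c * X t)).IsHomogeneous 4 := by
    have e1 : (X x - C ξ * X t : MvPolynomial (Fin 3) ℂ).IsHomogeneous 1 := (isHomogeneous_X _ _).sub (by
      have := (isHomogeneous_C (Fin 3) ξ).mul (isHomogeneous_X ℂ t)
      rwa [zero_add] at this)
    have e2 : (C a * X x + C c * X t : MvPolynomial (Fin 3) ℂ).IsHomogeneous 1 := by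
      have h1 := (isHomogeneous_C (Fin 3) a).mul (isHomogeneous_X ℂ x)
      have h2 := (isHomogeneous_C (Fin 3) c).mul (isHomogeneous_X ℂ t)
      rw [zero_add] at h1 h2
      exact h1.add h2
    exact h4.sub ((e1.pow 3).mul e2)
  have hU : uni x t 1 (b - (X x - C ξ * X t) ^ 3 * (C a * X x + C c * X t)) = 0 := by
    rw [uni_sub, uni_mul, uni_pow, uni_sub, uni_mul, uni_add, uni_mul, uni_mul, uni_C, uni_C, uni_C, uni_X, uni_X, if_pos rfl, if_neg hxt.symm, if_pos rfl, hq,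
      hac, Polynomial.C_1]
    ring
  have h0 : b - (X x - C ξ * X t) ^ 3 * (C a * X x + C c * X t) = 0 := by
    by_contra h0
    exact Pool.Agent.TC3.Cubic.uni_ne_zero hxt hB hH h0 hU
  exact ⟨C a * X x + C c * X t, sub_eq_zero.1 h0⟩

theorem lin_ne {x t : Fin 3} (hxt : x ≠ t) (ξ : ℂ) : (X x - C ξ * X t : MvPolynomial (Fin 3) ℂ) ≠ 0 := by
  classical
  intro h
  have h1 := congrArg (eval (Pi.single x (1 : ℂ))) h
  rw [map_sub, map_mul, eval_X, eval_C, eval_X, Pi.single_eq_same, Pi.single_eq_of_ne hxt.symm, mul_zero, sub_zero, map_zero] at h1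
  exact one_ne_zero h1

theorem lin_hom (x t : Fin 3) (ξ : ℂ) : (X x - C ξ * X t : MvPolynomial (Fin 3) ℂ).IsHomogeneous 1 :=
  (isHomogeneous_X _ _).sub (by
    have := (isHomogeneous_C (Fin 3) ξ).mul (isHomogeneous_X ℂ t)
    rwa [zero_add] at this)

end ExcQAux

/-- Proof: `TC2.not_excW` with `n = 3`, `x = 1`, `t = 2`, `m = 3`, `a = α` (`Sy 1 2 a m = C α * X 0 ^ 3`), `w = ![4, 3, 3]`, `e = 12`; `AdaptedW`: all roots of `b(x, 1)`
and of `b(1, t)` have multiplicity at most two -/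
theorem exc_Q {α : ℂ} (hα : α ≠ 0) {b : MvPolynomial (Fin 3) ℂ} (hb : ∀ v ∈ b.support, v 0 = 0 ∧ v.degree = 4)
    (h3 : ∀ q : MvPolynomial (Fin 3) ℂ, q.IsHomogeneous 1 → q ≠ 0 → ¬ q ^ 3 ∣ b) : ¬ ExcW (![4, 3, 3] : Fin 3 → ℕ) 12 (C α * X 0 ^ 3 + b) := by
  classical
  have h12 : (1 : Fin 3) ≠ 2 := by decide
  have hb0 : b ≠ 0 := by
    rintro rfl
    exact h3 (X 0) (isHomogeneous_X _ _) (X_ne_zero 0) (dvd_zero _)
  have hin : In2 1 2 b := by
    intro v hv j h1 h2
    have hj : j = 0 := by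
      fin_cases j
      · rfl
      · exact absurd rfl h1
      · exact absurd rfl h2
    rw [hj]
    exact (hb v hv).1
  have hhom : b.IsHomogeneous 4 := by
    intro v hv
    have h1 := (hb v (mem_support_iff.2 hv)).2
    rw [Finsupp.degree_eq_weight_one] at h1
    exact h1
  have hS : Sy (1 : Fin 3) 2 (fun _ => α) (fun _ => 3) = C α * X 0 ^ 3 := by
    unfold Sy
    have hJ : JJ (1 : Fin 3) 2 = {0} := by decide
    rw [hJ, Finset.sum_singleton]
  have hmul : ∀ {x t : Fin 3}, x ≠ t → In2 x t b → ∀ ξ : ℂ, (uni x t 1 b).rootMultiplicity ξ * (3 + 3) ≤ 12 := by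
    intro x t hxt hin ξ
    by_contra hlt
    refine h3 (X x - C ξ * X t) (ExcQAux.lin_hom x t ξ) (ExcQAux.lin_ne hxt ξ) (ExcQAux.cube_dvd hxt hin hhom ξ ?_)
    omega
  rw [← hS]
  refine not_excW 1 2 h12 (fun _ => 3) (fun _ => by norm_num) (fun _ => α) (fun _ => hα) b hin hb0 ![4, 3, 3] ?_ 12 ?_ ?_ ?_ ?_
  · intro j
    fin_cases j <;> decide
  · intro j h1 h2
    have hj : j = 0 := by
      fin_cases j
      · rfl
      · exact absurd rfl h1
      · exact absurd rfl h2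
    rw [hj]
    rfl
  · intro v hv
    have h1 := hb v hv
    rw [Finsupp.degree_eq_sum, Fin.sum_univ_three] at h1
    change 3 * v 1 + 3 * v 2 = 12
    omega
  · decide
  · intro ξ
    exact ⟨hmul h12 hin ξ, hmul h12.symm (fun v hv j h1 h2 => hin v hv j h2 h1) ξ⟩

end Pool.Agent.TQ4
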