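import Mathlib
import Pool.Agent.TQ4.Defs
import Pool.Agent.SN.FinalF

/-!
# TQ4/FaceQ: the face `α X₀³ + b(X₁, X₂)`, `b` a binary quartic form without triple factor
-/

set_option autoImplicit false

namespace Pool.Agent.TQ4

open MvPolynomial Pool.Agent.T9 Pool.Agent.TY Pool.Agent.TW Pool.Agent.TX Pool.Agent.TC2 Pool.Agent.TC3 Pool.Agent.TC4 Pool.Agent.SN

open Pool.Agent.TN.TowerAux (tau)

/-- finitely many singular points: `u₀ = 0` and `(u₁, u₂)` a multiple zero of `b` -/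
theorem fin_Q {α : ℂ} (hα : α ≠ 0) {b : MvPolynomial (Fin 3) ℂ} (hb : ∀ v ∈ b.support, v 0 = 0 ∧ v.degree = 4)
    (h3 : ∀ q : MvPolynomial (Fin 3) ℂ, q.IsHomogeneous 1 → q ≠ 0 → ¬ q ^ 3 ∣ b) (k : Fin 3) :
    {u : Fin 3 → ℂ | u k = 1 ∧ SingW (C α * X 0 ^ 3 + b) u}.Finite := by
  sorry

/-- the singular points are of type `A₂` (double zeros of `b`): in the chart `k` the germ is `α X₀³ + c X_j² + ⋯`, `c ≠ 0` -/
theorem nodes_Q {α : ℂ} (hα : α ≠ 0) {b : MvPolynomial (Fin 3) ℂ} (hb : ∀ v ∈ b.support, v 0 = 0 ∧ v.degree = 4)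
    (h3 : ∀ q : MvPolynomial (Fin 3) ℂ, q.IsHomogeneous 1 → q ≠ 0 → ¬ q ^ 3 ∣ b) (k : Fin 3) (u : Fin 3 → ℂ) (hu : SingW (C α * X 0 ^ 3 + b) u)
    (huk : u k ≠ 0) (g₂ : MvPolynomial (Fin 3) ℂ) : QA 3 k (bind₁ (tau k u) (C α * X 0 ^ 3 + b) + X k * g₂) := by
  sorry

end Pool.Agent.TQ4
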