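import Mathlib
import Pool.Agent.TQ4.Defs
import Pool.Agent.TC4.Defs

/-!
# TQ4/GoodQ: the two semi-quasi-homogeneous faces
-/

set_option autoImplicit false

namespace Pool.Agent.TQ4

open MvPolynomial Pool.Agent.T9 Pool.Agent.TY Pool.Agent.TW Pool.Agent.TX Pool.Agent.TC2 Pool.Agent.TC3 Pool.Agent.TC4 Pool.Agent.SN

/-- weights (12, 9, 8), degree 36; no singular point -/
theorem good_Qa {α β γ : ℂ} (hα : α ≠ 0) (hβ : β ≠ 0) (hγ : γ ≠ 0) :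
    Good3 (![12, 9, 8] : Fin 3 → ℕ) 36 (C α * X 0 ^ 3 + C β * X 1 ^ 4 + C γ * (X 0 * X 2 ^ 3)) := by
  sorry

/-- twice the weights (9, 7, 6), degree 54; no singular point -/
theorem good_Qb {α β γ : ℂ} (hα : α ≠ 0) (hβ : β ≠ 0) (hγ : γ ≠ 0) :
    Good3 (![18, 14, 12] : Fin 3 → ℕ) 54 (C α * X 0 ^ 3 + C β * (X 1 ^ 3 * X 2) + C γ * (X 0 * X 2 ^ 3)) := by
  sorry

/-- the other terms: `g` of order three with cubic part `α X₀³` and quartic part `b` on `X₀ = 0` -/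
theorem rest_Q {g b : MvPolynomial (Fin 3) ℂ} {α : ℂ} (g3 : OrdG 3 g) (h3 : homogeneousComponent 3 g = C α * X 0 ^ 3) (hb : IsB4 g b) :
    WG (![4, 3, 3] : Fin 3 → ℕ) 12 (g - (C α * X 0 ^ 3 + b)) := by
  sorry

theorem rest_Qa {g : MvPolynomial (Fin 3) ℂ} {α β : ℂ} (g3 : OrdG 3 g) (h3 : homogeneousComponent 3 g = C α * X 0 ^ 3) (hb : IsB4 g (C β * X 1 ^ 4)) :
    WG (![12, 9, 8] : Fin 3 → ℕ) 36
      (g - (C α * X 0 ^ 3 + C β * X 1 ^ 4 + C (coeff (Finsupp.single 0 1 + Finsupp.single 2 3) g) * (X 0 * X 2 ^ 3))) := by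
  sorry

theorem rest_Qb {g : MvPolynomial (Fin 3) ℂ} {α β : ℂ} (g3 : OrdG 3 g) (h3 : homogeneousComponent 3 g = C α * X 0 ^ 3)
    (hb : IsB4 g (C β * (X 1 ^ 3 * X 2))) :
    WG (![18, 14, 12] : Fin 3 → ℕ) 54
      (g - (C α * X 0 ^ 3 + C β * (X 1 ^ 3 * X 2) + C (coeff (Finsupp.single 0 1 + Finsupp.single 2 3) g) * (X 0 * X 2 ^ 3))) := by
  sorry

end Pool.Agent.TQ4
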