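import Mathlib
import Pool.Agent.TQ4.Defs

/-!
# TQ4/NormQ: linear coordinates over `K` for a germ whose cubic part is a cube
-/

set_option autoImplicit false

namespace Pool.Agent.TQ4

open MvPolynomial Pool.Agent.T9 Pool.Agent.TY Pool.Agent.TW Pool.Agent.TX Pool.Agent.TC2 Pool.Agent.TC4 Pool.Agent.SN

/-- linear coordinates over `K`: the cubic part is `α X₀³`, and the quartic part `b` on `X₀ = 0` has no triple factor, or it is `β X₁⁴` or `β X₁³ X₂` and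
`X₀ X₂³` occurs.
Proof: `l = l_i l₀`, `l₀` over `K` (the coefficients of `l³` at `X_i³` and `X_i² X_j`); `X₀ := l₀`.  `b` = part of degree four without `X₀`.  If `q³ ∣ b`, `q ≠ 0` linear
(without `X₀`), then: `b = 0`: the part `X₀ c₃(X₁, X₂)` of the quartic part has a linear factor `q' ≠ 0` in `c₃` (binary form over `ℂ`), contradiction with `q'`;
`b = q³ q₂ ≠ 0`: `q`, `q₂` are over `K` up to scalars (the triple root of a binary quartic over `K` is in `K`); `X₁ := q`, and `X₂ := q₂` if `q₂` is not a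
multiple of `q`; the coefficient of `X₀ X₂³` is not zero, as otherwise the quartic part is in `(q³, l², l q)`. -/
theorem norm_Q (K : IntermediateField ℚ ℂ) (g : MvPolynomial (Fin 3) ℂ) (hK : Ov K g) (l : MvPolynomial (Fin 3) ℂ) (hl : l.IsHomogeneous 1) (hl0 : l ≠ 0)
    (h3 : homogeneousComponent 3 g = l ^ 3)
    (h4 : ∀ q : MvPolynomial (Fin 3) ℂ, q.IsHomogeneous 1 → homogeneousComponent 4 g ∉ Ideal.span {q ^ 3, l ^ 2, l * q}) :
    ∃ (χ : Fin 3 → MvPolynomial (Fin 3) ℂ) (α : ℂ) (b : MvPolynomial (Fin 3) ℂ), (∀ k, (χ k).IsHomogeneous 1) ∧ (linM χ).det ≠ 0 ∧ (∀ k, Ov K (χ k)) ∧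
      α ≠ 0 ∧ homogeneousComponent 3 (bind₁ χ g) = C α * X 0 ^ 3 ∧ IsB4 (bind₁ χ g) b ∧
      ((∀ q : MvPolynomial (Fin 3) ℂ, q.IsHomogeneous 1 → q ≠ 0 → ¬ q ^ 3 ∣ b) ∨
        (coeff (Finsupp.single 0 1 + Finsupp.single 2 3) (bind₁ χ g) ≠ 0 ∧ ∃ β : ℂ, β ≠ 0 ∧ (b = C β * X 1 ^ 4 ∨ b = C β * (X 1 ^ 3 * X 2)))) := by
  sorry

end Pool.Agent.TQ4
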